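import Pool.Agent.helper6.EV.Spec

/-!
# Project ev, module IV: Fourier inversion
-/

set_option autoImplicit false

namespace Pool.Agent.EV

open N1f72dd46 Filter MeasureTheory Complex Metric Pool.Agent.helper6.LD

open scoped FourierTransform

/-- bound for the logarithmic derivative on the line `Re s = 2` -/
theorem IV_zeta : ∃ K : ℝ, 0 ≤ K ∧ ∀ s : ℂ, s.re = 2 →
    ‖deriv riemannZeta s / riemannZeta s‖ ≤ K := by
  refine ⟨∑' n : ℕ, ‖LSeries.term (fun n => (ArithmeticFunction.vonMangoldt n : ℂ)) 2 n‖,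
    tsum_nonneg fun n => norm_nonneg _, ?_⟩
  intro s hs
  have h1 := ArithmeticFunction.LSeries_vonMangoldt_eq_deriv_riemannZeta_div
    (s := s) (by rw [hs]; norm_num)
  have h2 : deriv riemannZeta s / riemannZeta s =
      -LSeries (fun n => (ArithmeticFunction.vonMangoldt n : ℂ)) s := by
    rw [h1, neg_div, neg_neg]
  have hterm : ∀ n : ℕ, ‖LSeries.term (fun n => (ArithmeticFunction.vonMangoldt n : ℂ)) s n‖ =
      ‖LSeries.term (fun n => (ArithmeticFunction.vonMangoldt n : ℂ)) 2 n‖ := by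
    intro n
    rw [LSeries.norm_term_eq, LSeries.norm_term_eq, hs]
    norm_num
  have hsum : Summable fun n : ℕ =>
      ‖LSeries.term (fun n => (ArithmeticFunction.vonMangoldt n : ℂ)) 2 n‖ :=
    (ArithmeticFunction.LSeriesSummable_vonMangoldt (s := 2) (by norm_num)).norm
  rw [h2, norm_neg, LSeries]
  have h3 : Summable fun n : ℕ =>
      ‖LSeries.term (fun n => (ArithmeticFunction.vonMangoldt n : ℂ)) s n‖ := by
    simpa only [hterm] using hsum
  refine (norm_tsum_le_tsum_norm h3).trans (le_of_eq ?_)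
  exact tsum_congr hterm

/-- bound for `Ph` on the line `Re s = 2` -/
theorem IV_Ph (hZT : ZT_stmt) : ∃ K : ℝ, 0 ≤ K ∧ ∀ y : ℝ,
    ‖Ph (2 + y * I)‖ ≤ K * (1 + y ^ 2)⁻¹ := by
  obtain ⟨K, hK, hζ⟩ := IV_zeta
  obtain ⟨-, hZ, -, -, -⟩ := hZT
  refine ⟨K + 2, by linarith, ?_⟩
  intro y
  set s : ℂ := 2 + y * I with hs
  have hre : s.re = 2 := by simp [hs]
  have him : s.im = y := by simp [hs]
  have hs1 : s ≠ 1 := by
    intro h
    rw [h] at hre
    norm_num at hre
  have hζ0 : riemannZeta s ≠ 0 := riemannZeta_ne_zero_of_one_le_re (by rw [hre]; norm_num)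
  have hs10 : s - 1 ≠ 0 := sub_ne_zero.2 hs1
  have hev : Zt =ᶠ[nhds s] fun z => (z - 1) * riemannZeta z := by
    filter_upwards [isOpen_ne.mem_nhds hs1] with z hz
    exact hZ z hz
  have hd : deriv Zt s = riemannZeta s + (s - 1) * deriv riemannZeta s := by
    rw [hev.deriv_eq]
    have h1 : HasDerivAt (fun z : ℂ => z - 1) 1 s := (hasDerivAt_id s).sub_const 1
    have h2 := (differentiableAt_riemannZeta hs1).hasDerivAt
    have h3 := (h1.mul h2).deriv
    rw [show (fun z : ℂ => (z - 1) * riemannZeta z) =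
      (fun z : ℂ => z - 1) * riemannZeta from rfl, h3, one_mul]
  have hq : deriv Zt s / Zt s = 1 / (s - 1) + deriv riemannZeta s / riemannZeta s := by
    rw [hd, hZ s hs1]
    field_simp
  have hn1 : ‖1 / (s - 1)‖ ≤ 1 := by
    have h1 : 1 ≤ ‖s - 1‖ := by
      have := Complex.abs_re_le_norm (s - 1)
      rw [Complex.sub_re, hre, Complex.one_re] at this
      norm_num at this
      exact this
    rw [norm_div, norm_one, div_le_one (by linarith)]
    exact h1
  have hnum : ‖-(deriv Zt s / Zt s + 1)‖ ≤ K + 2 := by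
    rw [norm_neg, hq]
    calc ‖1 / (s - 1) + deriv riemannZeta s / riemannZeta s + 1‖
        ≤ ‖1 / (s - 1)‖ + ‖deriv riemannZeta s / riemannZeta s‖ + ‖(1 : ℂ)‖ :=
          norm_add₃_le
      _ ≤ 1 + K + 1 := by
          rw [norm_one]
          gcongr
          exact hζ s hre
      _ = K + 2 := by ring
  have hden : 1 + y ^ 2 ≤ ‖s * (s + 1)‖ := by
    have h1 : ‖s‖ ^ 2 = 4 + y ^ 2 := by
      rw [← Complex.normSq_eq_norm_sq, Complex.normSq_apply, hre, him]
      ring
    have h2 : ‖s + 1‖ ^ 2 = 9 + y ^ 2 := by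
      rw [← Complex.normSq_eq_norm_sq, Complex.normSq_apply, Complex.add_re, Complex.add_im, hre,
        him, Complex.one_re, Complex.one_im]
      ring
    rw [norm_mul]
    have h3 : 0 ≤ ‖s‖ * ‖s + 1‖ := by positivity
    have h4 : (1 + y ^ 2) ^ 2 ≤ (‖s‖ * ‖s + 1‖) ^ 2 := by
      rw [mul_pow, h1, h2]
      nlinarith [sq_nonneg y, sq_nonneg (y ^ 2)]
    exact (sq_le_sq₀ (by positivity) h3).1 h4
  have hpos : 0 < 1 + y ^ 2 := by positivity
  rw [Ph, norm_div, div_eq_mul_inv]
  gcongr

/-- the function whose Fourier transform is `Ph` -/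
noncomputable def IV_h (u : ℝ) : ℂ := (Rx (Real.exp (max u 0)) : ℂ) * Complex.exp (-(3 * u))

theorem IV_Rx_one : Rx 1 = 0 := intervalIntegral.integral_same

theorem IV_h_neg (u : ℝ) (hu : u ≤ 0) : IV_h u = 0 := by
  rw [IV_h, max_eq_right hu, Real.exp_zero, IV_Rx_one, Complex.ofReal_zero, zero_mul]

theorem IV_cont (h : ContinuousOn Rx (Set.Ici 1)) : Continuous IV_h := by
  unfold IV_h
  have h1 : Continuous fun u : ℝ => Rx (Real.exp (max u 0)) := by
    refine h.comp_continuous (Real.continuous_exp.comp (continuous_id.max continuous_const)) ?_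
    intro u
    exact Real.one_le_exp (le_max_right _ _)
  exact (Complex.continuous_ofReal.comp h1).mul (by fun_prop)

theorem IV_int (h : ContinuousOn Rx (Set.Ici 1)) (C : ℝ)
    (hC : ∀ x, 1 ≤ x → |Rx x| ≤ C * x ^ 2) : Integrable IV_h := by
  have h1 : IntegrableOn (fun u : ℝ => C * Real.exp (-1 * u)) (Set.Ioi 0) :=
    (exp_neg_integrableOn_Ioi 0 one_pos).const_mul C
  have h2 : Integrable ((Set.Ioi (0 : ℝ)).indicator fun u : ℝ => C * Real.exp (-1 * u)) :=
    (integrable_indicator_iff measurableSet_Ioi).2 h1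
  refine h2.mono' (IV_cont h).aestronglyMeasurable (Filter.Eventually.of_forall ?_)
  intro u
  by_cases hu : 0 < u
  · rw [Set.indicator_of_mem (show u ∈ Set.Ioi (0 : ℝ) from hu), IV_h, max_eq_left hu.le, norm_mul,
      Complex.norm_real, Real.norm_eq_abs]
    have h3 := hC (Real.exp u) (Real.one_le_exp hu.le)
    have h4 : ‖Complex.exp (-(3 * (u : ℂ)))‖ = Real.exp (-(3 * u)) := by
      rw [Complex.norm_exp]
      congr 1
      simp
    rw [h4]
    calc |Rx (Real.exp u)| * Real.exp (-(3 * u))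
        ≤ C * Real.exp u ^ 2 * Real.exp (-(3 * u)) := by gcongr
      _ = C * Real.exp (-1 * u) := by
          rw [← Real.exp_nat_mul, mul_assoc, ← Real.exp_add]
          congr 2
          push_cast
          ring
  · rw [IV_h_neg u (not_lt.1 hu), norm_zero, Set.indicator_of_notMem (by simpa using hu)]

theorem IV_fourier (hRE : ∀ s : ℂ, 1 < s.re →
    ∫ u in Set.Ioi (0 : ℝ), (Rx (Real.exp u) : ℂ) * Complex.exp (-(s + 1) * u) = Ph s) (w : ℝ) :
    𝓕 IV_h w = Ph (2 + (2 * Real.pi * w : ℝ) * I) := by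
  rw [Real.fourier_real_eq_integral_exp_smul, ← hRE _ (by simp)]
  rw [← setIntegral_eq_integral_of_forall_compl_eq_zero (s := Set.Ioi (0 : ℝ))]
  · refine setIntegral_congr_fun measurableSet_Ioi ?_
    intro u hu
    have hu' : 0 < u := hu
    simp only [IV_h]
    rw [max_eq_left hu'.le, smul_eq_mul, mul_left_comm, ← Complex.exp_add]
    congr 2
    push_cast
    ring
  · intro u hu
    rw [IV_h_neg u (by simpa using hu), smul_zero]

theorem IV (hZT : ZT_stmt) (hRE : RE_stmt) : IV_stmt := by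
  obtain ⟨hRc, ⟨C, hC⟩, hRE'⟩ := hRE
  obtain ⟨K, hK, hPh⟩ := IV_Ph hZT
  have hcont := IV_cont hRc
  have hint := IV_int hRc C hC
  have hF := IV_fourier hRE'
  have hFcont : Continuous (𝓕 IV_h) :=
    VectorFourier.fourierIntegral_continuous Real.continuous_fourierChar
      (innerSL ℝ).continuous₂ hint
  have hPcont : Continuous fun y : ℝ => Ph (2 + y * I) := by
    have h1 : Continuous fun y : ℝ => 𝓕 IV_h (y / (2 * Real.pi)) :=
      hFcont.comp (continuous_id.div_const _)
    refine h1.congr ?_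
    intro y
    rw [hF]
    congr 3
    have : (2 * Real.pi) ≠ 0 := by positivity
    field_simp
  have hPint : Integrable fun y : ℝ => Ph (2 + y * I) :=
    (integrable_inv_one_add_sq.const_mul K).mono' hPcont.aestronglyMeasurable
      (Filter.Eventually.of_forall hPh)
  have h2pi : (2 * Real.pi) ≠ 0 := by positivity
  have hFint : Integrable (𝓕 IV_h) := by
    have h1 : Integrable fun w : ℝ => Ph (2 + ((2 * Real.pi * w : ℝ) : ℂ) * I) :=
      hPint.comp_mul_left' h2pi
    exact h1.congr (Filter.Eventually.of_forall fun w => (hF w).symm)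
  have hinv := hcont.fourierInv_fourier_eq hint hFint
  intro x hx
  have hx0 : (0 : ℝ) < x := by linarith
  have hxne : (x : ℂ) ≠ 0 := by exact_mod_cast hx0.ne'
  set u : ℝ := Real.log x with hu
  have hu0 : 0 ≤ u := Real.log_nonneg hx
  have hexp : Real.exp u = x := Real.exp_log hx0
  have hpow : ∀ y : ℝ, (x : ℂ) ^ ((2 + y * I : ℂ) + 1) =
      Complex.exp (3 * u) * Complex.exp (((u * y : ℝ) : ℂ) * I) := by
    intro y
    rw [Complex.cpow_def_of_ne_zero hxne, ← Complex.ofReal_log hx0.le, ← hu, ← Complex.exp_add]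
    congr 1
    push_cast
    ring
  have hcontE : Continuous fun y : ℝ => Complex.exp (((u * y : ℝ) : ℂ) * I) := by fun_prop
  have hI1 : Integrable fun y : ℝ => Complex.exp (((u * y : ℝ) : ℂ) * I) * Ph (2 + y * I) := by
    refine hPint.norm.mono' (hcontE.mul hPcont).aestronglyMeasurable
      (Filter.Eventually.of_forall ?_)
    intro y
    rw [norm_mul, Complex.norm_exp_ofReal_mul_I, one_mul]
  have hcongr : ∀ y : ℝ, Ph (2 + y * I) * (x : ℂ) ^ ((2 + y * I : ℂ) + 1) =
      Complex.exp (3 * u) * (Complex.exp (((u * y : ℝ) : ℂ) * I) * Ph (2 + y * I)) := by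
    intro y
    rw [hpow]
    ring
  constructor
  · refine (hI1.const_mul (Complex.exp (3 * u))).congr (Filter.Eventually.of_forall ?_)
    intro y
    exact (hcongr y).symm
  · simp only [hcongr]
    rw [integral_const_mul]
    have h1 : IV_h u = ((1 / (2 * Real.pi) : ℝ) : ℂ) *
        ∫ y : ℝ, Complex.exp (((u * y : ℝ) : ℂ) * I) * Ph (2 + y * I) := by
      have h2 := congrFun hinv u
      rw [← h2, Real.fourierInv_eq']
      have hin : ∀ v : ℝ, (inner ℝ v u : ℝ) = u * v := by
        intro v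
        simp
      have h3 : ∀ v : ℝ, Complex.exp (((2 * Real.pi * inner ℝ v u : ℝ) : ℂ) * I) • 𝓕 IV_h v =
          (fun y : ℝ => Complex.exp (((u * y : ℝ) : ℂ) * I) * Ph (2 + y * I))
            (2 * Real.pi * v) := by
        intro v
        rw [hF, smul_eq_mul]
        simp only
        congr 3
        rw [hin]
        push_cast
        ring
      have h5 := Measure.integral_comp_mul_left
        (fun y : ℝ => Complex.exp (((u * y : ℝ) : ℂ) * I) * Ph (2 + y * I)) (2 * Real.pi)
      refine (integral_congr_ae (Filter.Eventually.of_forall h3)).trans (h5.trans ?_)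
      rw [Complex.real_smul, abs_of_nonneg (by positivity), one_div]
    have h4 : (Rx x : ℂ) = IV_h u * Complex.exp (3 * u) := by
      rw [IV_h, max_eq_left hu0, hexp, mul_assoc, ← Complex.exp_add]
      simp
    rw [h4, h1]
    ring

end Pool.Agent.EV
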